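import Pool.Agent.Helper57.TX.Defs
import Pool.Agent.Helper66.HG.MVb

/-!
# NR: block B4' (variation of the prime sums over one mean spacing)
-/

set_option autoImplicit false
open MeasureTheory Set Filter Topology
open scoped ENNReal
open Pool.Agent.Helper57.TX (JJ)

namespace Pool.Agent.Helper62.NR

/-- A Dirichlet polynomial on the critical line. -/
noncomputable def FP (N : ℕ) (a : ℕ → ℝ) (t : ℝ) : ℂ :=
  ∑ n ∈ Finset.Icc 1 N, (a n : ℂ) * (n : ℂ) ^ (-((1 / 2 : ℂ) + t * Complex.I))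

theorem FP_exp (N : ℕ) (a : ℕ → ℝ) (t : ℝ) :
    FP N a t = ∑ n ∈ Finset.Icc 1 N, (a n : ℂ) * (((1 / Real.sqrt n : ℝ) : ℂ) *
      Complex.exp (-(Real.log n * t : ℝ) * Complex.I)) := by
  unfold FP
  refine Finset.sum_congr rfl fun n hn => ?_
  rw [Pool.Agent.Helper66.HG.cpow_half (Finset.mem_Icc.1 hn).1]

theorem FP_deriv (N : ℕ) (a : ℕ → ℝ) (t : ℝ) :
    HasDerivAt (FP N a) (-Complex.I * FP N (fun n => a n * Real.log n) t) t := by
  have h : HasDerivAt (fun t : ℝ => ∑ n ∈ Finset.Icc 1 N, (a n : ℂ) * (((1 / Real.sqrt n : ℝ) : ℂ) *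
      Complex.exp (-(Real.log n * t : ℝ) * Complex.I)))
      (∑ n ∈ Finset.Icc 1 N, (a n : ℂ) * (((1 / Real.sqrt n : ℝ) : ℂ) *
        (Complex.exp (-(Real.log n * t : ℝ) * Complex.I) * (-(Real.log n : ℝ) * Complex.I)))) t := by
    refine HasDerivAt.fun_sum fun n _ => ?_
    refine HasDerivAt.const_mul _ (HasDerivAt.const_mul _ ?_)
    have h1 : HasDerivAt (fun t : ℝ => (-(Real.log n * t : ℝ) * Complex.I : ℂ))
        (-(Real.log n : ℝ) * Complex.I) t := by
      have h2 : HasDerivAt (fun t : ℝ => ((t : ℝ) : ℂ)) 1 t := by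
        simpa using (hasDerivAt_id t).ofReal_comp
      have h3 := (h2.const_mul (-(Real.log n : ℝ) * Complex.I : ℂ))
      refine (h3.congr_deriv (by ring)).congr_of_eventuallyEq (Eventually.of_forall fun u => ?_)
      push_cast
      ring
    exact h1.cexp
  have e : (fun t : ℝ => FP N a t) = fun t : ℝ => ∑ n ∈ Finset.Icc 1 N, (a n : ℂ) * (((1 / Real.sqrt n : ℝ) : ℂ) *
      Complex.exp (-(Real.log n * t : ℝ) * Complex.I)) := funext fun t => FP_exp N a t
  have e2 : (FP N a) = fun t : ℝ => ∑ n ∈ Finset.Icc 1 N, (a n : ℂ) * (((1 / Real.sqrt n : ℝ) : ℂ) *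
      Complex.exp (-(Real.log n * t : ℝ) * Complex.I)) := e
  rw [e2]
  refine h.congr_deriv ?_
  rw [FP_exp, Finset.mul_sum]
  refine Finset.sum_congr rfl fun n _ => ?_
  push_cast
  ring

theorem FP_cont (N : ℕ) (a : ℕ → ℝ) : Continuous (FP N a) :=
  continuous_iff_continuousAt.2 fun t => (FP_deriv N a t).continuousAt

/-- the variation -/
theorem FP_var (N : ℕ) (a : ℕ → ℝ) {s t t' : ℝ} (h : |t - t'| ≤ s) :
    ‖FP N a t - FP N a t'‖ ≤ ∫ u in (t' - s)..(t' + s), ‖FP N (fun n => a n * Real.log n) u‖ := by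
  have hc := FP_cont N (fun n => a n * Real.log n)
  have h1 : ∫ u in t'..t, -Complex.I * FP N (fun n => a n * Real.log n) u = FP N a t - FP N a t' :=
    intervalIntegral.integral_eq_sub_of_hasDerivAt (fun u _ => FP_deriv N a u)
      ((continuous_const.mul hc).intervalIntegrable _ _)
  rw [← h1]
  have hs := abs_le.1 h
  have hs0 : 0 ≤ s := (abs_nonneg _).trans h
  have h2 : ‖∫ u in t'..t, -Complex.I * FP N (fun n => a n * Real.log n) u‖ ≤
      |∫ u in t'..t, ‖-Complex.I * FP N (fun n => a n * Real.log n) u‖| :=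
    intervalIntegral.norm_integral_le_abs_integral_norm
  refine h2.trans ?_
  simp only [norm_mul, norm_neg, Complex.norm_I, one_mul]
  rcases le_total t' t with h3 | h3
  · rw [abs_of_nonneg (intervalIntegral.integral_nonneg h3 fun u _ => norm_nonneg _)]
    exact intervalIntegral.integral_mono_interval (by linarith) h3 (by linarith)
      (Eventually.of_forall fun u => norm_nonneg _) (hc.norm.intervalIntegrable _ _)
  · rw [intervalIntegral.integral_symm, abs_neg,
      abs_of_nonneg (intervalIntegral.integral_nonneg h3 fun u _ => norm_nonneg _)]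
    exact intervalIntegral.integral_mono_interval (by linarith) h3 (by linarith)
      (Eventually.of_forall fun u => norm_nonneg _) (hc.norm.intervalIntegrable _ _)

/-- the mean of the local mean square -/
theorem FP_loc (N : ℕ) (b : ℕ → ℝ) {T s : ℝ} (hT : 1 ≤ T) (hN : (N : ℝ) ≤ T) (hs : 0 < s) (hsT : s ≤ T) :
    ∫⁻ t in JJ T, ∫⁻ v in Icc (-s) s, ENNReal.ofReal (‖FP N b (t + v)‖ ^ 2) ≤
      ENNReal.ofReal (280 * s * T * ∑ n ∈ Finset.Icc 1 N, b n ^ 2 / n) := by
  have hc : Continuous fun u => ‖FP N b u‖ ^ 2 := (FP_cont N b).norm.pow 2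
  have hmv := Pool.Agent.Helper66.HG.mv_int (N := N) (fun n => (b n : ℂ)) (T := 5 * T) (by linarith)
    (by linarith) 0
  have hS : 0 ≤ ∑ n ∈ Finset.Icc 1 N, b n ^ 2 / (n : ℝ) := Finset.sum_nonneg fun n _ => by positivity
  have hI : ∫⁻ u in Icc (-(5 * T)) (5 * T), ENNReal.ofReal (‖FP N b u‖ ^ 2) ≤
      ENNReal.ofReal (140 * T * ∑ n ∈ Finset.Icc 1 N, b n ^ 2 / n) := by
    rw [← ofReal_integral_eq_lintegral_ofReal hc.integrableOn_Icc (Eventually.of_forall fun u => by positivity)]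
    refine ENNReal.ofReal_le_ofReal ?_
    have e1 : ∑ n ∈ Finset.Icc 1 N, ‖(b n : ℂ)‖ ^ 2 / (n : ℝ) = ∑ n ∈ Finset.Icc 1 N, b n ^ 2 / (n : ℝ) := by
      refine Finset.sum_congr rfl fun n _ => ?_
      rw [Complex.norm_real, Real.norm_eq_abs, sq_abs]
    rw [e1, zero_sub, zero_add] at hmv
    refine (le_of_eq ?_).trans (hmv.trans (le_of_eq (by ring)))
    rfl
  have hmeas : Measurable (Function.uncurry fun (t v : ℝ) => ENNReal.ofReal (‖FP N b (t + v)‖ ^ 2)) :=
    ENNReal.measurable_ofReal.comp ((hc.comp (continuous_fst.add continuous_snd)).measurable)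
  rw [lintegral_lintegral_swap hmeas.aemeasurable]
  have h1 : ∀ v ∈ Icc (-s) s, ∫⁻ t in JJ T, ENNReal.ofReal (‖FP N b (t + v)‖ ^ 2) ≤
      ENNReal.ofReal (140 * T * ∑ n ∈ Finset.Icc 1 N, b n ^ 2 / n) := by
    intro v hv
    refine le_trans ?_ hI
    rw [← lintegral_indicator (by unfold JJ; exact measurableSet_Icc), ← lintegral_indicator measurableSet_Icc,
      ← lintegral_add_right_eq_self
        ((Icc (-(5 * T)) (5 * T)).indicator fun u => ENNReal.ofReal (‖FP N b u‖ ^ 2)) v]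
    refine lintegral_mono fun t => ?_
    by_cases ht : t ∈ JJ T
    · have h2 : t + v ∈ Icc (-(5 * T)) (5 * T) := by
        unfold JJ at ht
        constructor <;> linarith [ht.1, ht.2, hv.1, hv.2]
      rw [indicator_of_mem ht, indicator_of_mem h2]
    · rw [indicator_of_notMem ht]
      exact bot_le
  calc ∫⁻ v in Icc (-s) s, ∫⁻ t in JJ T, ENNReal.ofReal (‖FP N b (t + v)‖ ^ 2)
      ≤ ∫⁻ _ in Icc (-s) s, ENNReal.ofReal (140 * T * ∑ n ∈ Finset.Icc 1 N, b n ^ 2 / n) :=
        setLIntegral_mono' measurableSet_Icc h1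
    _ = ENNReal.ofReal (140 * T * ∑ n ∈ Finset.Icc 1 N, b n ^ 2 / n) * ENNReal.ofReal (2 * s) := by
        rw [setLIntegral_const, Real.volume_Icc]
        congr 2
        ring
    _ = _ := by
        rw [← ENNReal.ofReal_mul (by positivity)]
        congr 1
        ring

/-- tail of the variation -/
theorem FP_tail (N : ℕ) (b : ℕ → ℝ) {T s V : ℝ} (hT : 1 ≤ T) (hN : (N : ℝ) ≤ T) (hs : 0 < s) (hsT : s ≤ T)
    (hV : 0 < V) :
    volume {t : ℝ | t ∈ JJ T ∧ V ≤ ∫ u in (t - s)..(t + s), ‖FP N b u‖} ≤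
      ENNReal.ofReal (560 * (s / V) ^ 2 * (∑ n ∈ Finset.Icc 1 N, b n ^ 2 / n) * T) := by
  have hc : Continuous fun u => ‖FP N b u‖ := (FP_cont N b).norm
  have hc2 : Continuous fun u => ‖FP N b u‖ ^ 2 := hc.pow 2
  have hS : 0 ≤ ∑ n ∈ Finset.Icc 1 N, b n ^ 2 / (n : ℝ) := Finset.sum_nonneg fun n _ => by positivity
  set H : ℝ → ℝ≥0∞ := fun t => ∫⁻ v in Icc (-s) s, ENNReal.ofReal (‖FP N b (t + v)‖ ^ 2) with hH
  have hmeas : Measurable (Function.uncurry fun (t v : ℝ) => ENNReal.ofReal (‖FP N b (t + v)‖ ^ 2)) :=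
    ENNReal.measurable_ofReal.comp ((hc2.comp (continuous_fst.add continuous_snd)).measurable)
  have hHm : Measurable H := hmeas.lintegral_prod_right'
  have hsub : {t : ℝ | t ∈ JJ T ∧ V ≤ ∫ u in (t - s)..(t + s), ‖FP N b u‖} ⊆
      {t : ℝ | t ∈ JJ T ∧ ENNReal.ofReal (V ^ 2 / (2 * s)) ≤ H t} := by
    rintro t ⟨ht, hV1⟩
    refine ⟨ht, ?_⟩
    have e1 : H t = ENNReal.ofReal (∫ u in (t - s)..(t + s), ‖FP N b u‖ ^ 2) := by
      have h1 : ∫ u in (t - s)..(t + s), ‖FP N b u‖ ^ 2 = ∫ v in (-s)..s, ‖FP N b (t + v)‖ ^ 2 := by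
        rw [intervalIntegral.integral_comp_add_left (fun u => ‖FP N b u‖ ^ 2) t]
        rfl
      have hc3 : Continuous fun v => ‖FP N b (t + v)‖ ^ 2 := hc2.comp (continuous_const.add continuous_id)
      rw [h1, intervalIntegral.integral_of_le (by linarith), ← integral_Icc_eq_integral_Ioc,
        ofReal_integral_eq_lintegral_ofReal hc3.integrableOn_Icc
          (Eventually.of_forall fun u => sq_nonneg _)]
    rw [e1]
    refine ENNReal.ofReal_le_ofReal ?_
    have h2 : ∫ u in (t - s)..(t + s), ‖FP N b u‖ ≤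
        ∫ u in (t - s)..(t + s), (s / V * ‖FP N b u‖ ^ 2 + V / (4 * s)) := by
      refine intervalIntegral.integral_mono_on (by linarith) (hc.intervalIntegrable _ _)
        (((continuous_const.mul hc2).add continuous_const).intervalIntegrable _ _) fun u _ => ?_
      set x := ‖FP N b u‖
      have h3 : 0 ≤ s / V * (x - V / (2 * s)) ^ 2 := by positivity
      have h4 : s / V * (x - V / (2 * s)) ^ 2 = s / V * x ^ 2 + V / (4 * s) - x := by
        field_simp
        ring
      linarith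
    have hi1 : IntervalIntegrable (fun u => s / V * ‖FP N b u‖ ^ 2) volume (t - s) (t + s) :=
      (continuous_const.mul hc2).intervalIntegrable _ _
    have hi2 : IntervalIntegrable (fun _ : ℝ => V / (4 * s)) volume (t - s) (t + s) :=
      continuous_const.intervalIntegrable _ _
    rw [intervalIntegral.integral_add hi1 hi2, intervalIntegral.integral_const_mul,
      intervalIntegral.integral_const, smul_eq_mul] at h2
    have h5 : (t + s - (t - s)) * (V / (4 * s)) = V / 2 := by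
      field_simp
      ring
    rw [h5] at h2
    have h6 : V / 2 ≤ s / V * ∫ u in (t - s)..(t + s), ‖FP N b u‖ ^ 2 := by linarith
    rw [div_le_iff₀ (by positivity)]
    have h7 : s / V * (∫ u in (t - s)..(t + s), ‖FP N b u‖ ^ 2) * (2 * V) =
        (∫ u in (t - s)..(t + s), ‖FP N b u‖ ^ 2) * (2 * s) := by
      field_simp
    nlinarith [mul_le_mul_of_nonneg_right h6 (by positivity : 0 ≤ 2 * V)]
  refine (measure_mono hsub).trans ?_
  have hms : MeasurableSet {t : ℝ | t ∈ JJ T ∧ ENNReal.ofReal (V ^ 2 / (2 * s)) ≤ H t} :=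
    (by unfold JJ; exact measurableSet_Icc : MeasurableSet (JJ T)).inter (measurableSet_le measurable_const hHm)
  have hpos : 0 < V ^ 2 / (2 * s) := by positivity
  have h8 : ENNReal.ofReal (V ^ 2 / (2 * s)) *
      volume {t : ℝ | t ∈ JJ T ∧ ENNReal.ofReal (V ^ 2 / (2 * s)) ≤ H t} ≤ ∫⁻ t in JJ T, H t := by
    calc ENNReal.ofReal (V ^ 2 / (2 * s)) *
        volume {t : ℝ | t ∈ JJ T ∧ ENNReal.ofReal (V ^ 2 / (2 * s)) ≤ H t}
        = ∫⁻ _ in {t : ℝ | t ∈ JJ T ∧ ENNReal.ofReal (V ^ 2 / (2 * s)) ≤ H t}, ENNReal.ofReal (V ^ 2 / (2 * s)) := by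
          rw [setLIntegral_const]
      _ ≤ ∫⁻ t in {t : ℝ | t ∈ JJ T ∧ ENNReal.ofReal (V ^ 2 / (2 * s)) ≤ H t}, H t :=
          setLIntegral_mono' hms fun t ht => ht.2
      _ ≤ _ := lintegral_mono_set fun t ht => ht.1
  have h9 := h8.trans (FP_loc N b hT hN hs hsT)
  have h10 : volume {t : ℝ | t ∈ JJ T ∧ ENNReal.ofReal (V ^ 2 / (2 * s)) ≤ H t} ≤
      ENNReal.ofReal (280 * s * T * ∑ n ∈ Finset.Icc 1 N, b n ^ 2 / n) / ENNReal.ofReal (V ^ 2 / (2 * s)) := by
    rw [ENNReal.le_div_iff_mul_le (Or.inl (by simpa using hpos)) (Or.inl ENNReal.ofReal_ne_top), mul_comm]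
    exact h9
  rw [← ENNReal.ofReal_div_of_pos hpos] at h10
  refine h10.trans (ENNReal.ofReal_le_ofReal (le_of_eq ?_))
  field_simp
  ring

end Pool.Agent.Helper62.NR
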